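import Pool.Agent.Y234.EM.Stm

/-!
`Pool.Agent.Y234.EM.S_REDC`: a reduction by a monic map.
-/

set_option autoImplicit false

namespace Pool.Agent.Y960.EM

open Pool.Agent.Y234.EM

theorem step1 {R : Type} [CommRing R] {J Q m : Ideal R} {N : ℕ}
    (h : J ^ (N + 1) ≤ Q * J ^ N ⊔ m * J ^ (N + 1)) (j : ℕ) :
    J ^ (N + 1 + j) ≤ Q * J ^ (N + j) ⊔ m * J ^ (N + 1 + j) := by
  calc J ^ (N + 1 + j) = J ^ (N + 1) * J ^ j := pow_add _ _ _
    _ ≤ (Q * J ^ N ⊔ m * J ^ (N + 1)) * J ^ j := Ideal.mul_mono_left h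
    _ = Q * J ^ (N + j) ⊔ m * J ^ (N + 1 + j) := by
      rw [Ideal.sup_mul, mul_assoc, mul_assoc, ← pow_add, ← pow_add]

theorem stepK {R : Type} [CommRing R] {J Q m : Ideal R} {N : ℕ}
    (h : J ^ (N + 1) ≤ Q * J ^ N ⊔ m * J ^ (N + 1)) (j K : ℕ) :
    J ^ (N + 1 + j) ≤ Q * J ^ (N + j) ⊔ m ^ K * J ^ (N + 1 + j) := by
  induction K with
  | zero => rw [pow_zero, Ideal.one_eq_top, Ideal.top_mul]; exact le_sup_right
  | succ K ih =>
    refine ih.trans (sup_le le_sup_left ?_)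
    calc m ^ K * J ^ (N + 1 + j) ≤ m ^ K * (Q * J ^ (N + j) ⊔ m * J ^ (N + 1 + j)) :=
          Ideal.mul_mono_right (step1 h j)
      _ = m ^ K * (Q * J ^ (N + j)) ⊔ m ^ K * (m * J ^ (N + 1 + j)) := Ideal.mul_sup _ _ _
      _ ≤ Q * J ^ (N + j) ⊔ m ^ (K + 1) * J ^ (N + 1 + j) := by
        refine sup_le_sup Ideal.mul_le_right (le_of_eq ?_)
        rw [pow_succ, mul_assoc]

theorem stepn {R : Type} [CommRing R] {J Q m : Ideal R} {N : ℕ}
    (h : J ^ (N + 1) ≤ Q * J ^ N ⊔ m * J ^ (N + 1)) (K n : ℕ) :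
    J ^ (N + n) ≤ Q ^ n ⊔ m ^ K := by
  induction n with
  | zero => rw [pow_zero, Ideal.one_eq_top, top_sup_eq]; exact le_top
  | succ n ih =>
    have h1 := stepK h n K
    have e1 : N + (n + 1) = N + 1 + n := by ring
    rw [e1]
    refine h1.trans (sup_le ?_ ?_)
    · calc Q * J ^ (N + n) ≤ Q * (Q ^ n ⊔ m ^ K) := Ideal.mul_mono_right ih
        _ = Q * Q ^ n ⊔ Q * m ^ K := Ideal.mul_sup _ _ _
        _ ≤ Q ^ (n + 1) ⊔ m ^ K := by
          refine sup_le_sup (le_of_eq ?_) Ideal.mul_le_right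
          rw [pow_succ, mul_comm]
    · exact le_trans Ideal.mul_le_left le_sup_right

theorem redc : S_REDC := by
  intro k _ v c J f N hc hJ hf h
  classical
  obtain ⟨M, hM1, hM2⟩ : ∃ M : ℕ, (Finset.univ.sup (fun i => (f i).totalDegree)) + c + 1 ≤ M ∧
      (M : k) ≠ 0 := by
    by_cases h0 : (((Finset.univ.sup (fun i => (f i).totalDegree)) + c + 1 : ℕ) : k) = 0
    · refine ⟨(Finset.univ.sup (fun i => (f i).totalDegree)) + c + 1 + 1, by omega, ?_⟩
      rw [Nat.cast_succ, h0, zero_add]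
      exact one_ne_zero
    · exact ⟨_, le_rfl, h0⟩
  have hX : ∀ i, (MvPolynomial.X i : MvPolynomial (Fin v) k) ^ M ∈ mm k v * J := by
    intro i
    have h1 : (MvPolynomial.X i : MvPolynomial (Fin v) k) ^ M ∈ mm k v ^ M :=
      Ideal.pow_mem_pow (Ideal.subset_span (Set.mem_range_self i)) M
    have h2 : mm k v ^ M ≤ mm k v * J := by
      calc mm k v ^ M ≤ mm k v ^ (c + 1) := Ideal.pow_le_pow_right (by omega)
        _ = mm k v * mm k v ^ c := by rw [pow_succ, mul_comm]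
        _ ≤ mm k v * J := Ideal.mul_mono_right hc
    exact h2 h1
  refine ⟨M, fun i => f i + MvPolynomial.X i ^ M, ⟨by omega, fun i => ⟨f i, ?_, rfl⟩⟩, hM2,
    fun i => ?_, ?_⟩
  · have : (f i).totalDegree ≤ Finset.univ.sup (fun i => (f i).totalDegree) :=
      Finset.le_sup (f := fun i => (f i).totalDegree) (Finset.mem_univ i)
    omega
  · exact J.add_mem (hf i) (Ideal.mul_le_right (I := mm k v) (hX i))
  · apply stepn
    have h1 : qq f ≤ qq (fun i => f i + MvPolynomial.X i ^ M) ⊔ mm k v * J := by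
      rw [Ideal.span_le]
      rintro _ ⟨i, rfl⟩
      have h2 : f i = (f i + MvPolynomial.X i ^ M) - MvPolynomial.X i ^ M := by ring
      rw [SetLike.mem_coe, h2]
      exact Ideal.sub_mem _ (Ideal.mem_sup_left (Ideal.subset_span (Set.mem_range_self i)))
        (Ideal.mem_sup_right (hX i))
    refine h.trans (sup_le ?_ le_sup_right)
    calc qq f * J ^ N ≤ (qq (fun i => f i + MvPolynomial.X i ^ M) ⊔ mm k v * J) * J ^ N :=
          Ideal.mul_mono_left h1
      _ = qq (fun i => f i + MvPolynomial.X i ^ M) * J ^ N ⊔ mm k v * J ^ (N + 1) := by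
        rw [Ideal.sup_mul, mul_assoc, pow_succ, mul_comm (J ^ N) J]

end Pool.Agent.Y960.EM
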